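import Pool.Agent.H1.LD.D

/-!
The algebra of row LD/Lj: Laurent coefficients of `zt zw^b` and `zw^b pw`.
-/

set_option autoImplicit false

namespace LD1

open Complex Set Filter Topology MeasureTheory EW1 EX1 ND1
open scoped ComplexConjugate ContDiff Real

private theorem pr_ne {ρ : ℝ} (hρ : 0 < ρ) (t : ℝ) : pr ρ t ≠ 0 := by
  unfold pr
  exact mul_ne_zero (by exact_mod_cast hρ.ne') (Complex.exp_ne_zero _)

private theorem pr_cont (ρ : ℝ) : Continuous (pr ρ) := by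
  unfold pr
  fun_prop

private theorem prz_cont {ρ : ℝ} (hρ : 0 < ρ) (k : ℤ) : Continuous (fun t => pr ρ t ^ k) :=
  (pr_cont ρ).zpow₀ k (fun t => Or.inl (pr_ne hρ t))

/-- continuity on the circle -/
private def CC (ρ : ℝ) (F : ℂ → ℂ) : Prop := Continuous (fun t => F (pr ρ t))

private theorem cz_add {ρ : ℝ} (hρ : 0 < ρ) {F G : ℂ → ℂ} (hF : CC ρ F) (hG : CC ρ G) (m : ℤ) :
    cz ρ (fun w => F w + G w) m = cz ρ F m + cz ρ G m := by
  have h1 : Continuous fun t => F (pr ρ t) * pr ρ t ^ (-m) := hF.mul (prz_cont hρ _)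
  have h2 : Continuous fun t => G (pr ρ t) * pr ρ t ^ (-m) := hG.mul (prz_cont hρ _)
  unfold cz
  rw [← add_div, ← intervalIntegral.integral_add (h1.intervalIntegrable _ _) (h2.intervalIntegrable _ _)]
  congr 2
  ext t
  ring

private theorem cz_smul {ρ : ℝ} (c : ℂ) (F : ℂ → ℂ) (m : ℤ) : cz ρ (fun w => c * F w) m = c * cz ρ F m := by
  unfold cz
  rw [← mul_div_assoc, ← intervalIntegral.integral_const_mul]
  congr 2
  ext t
  ring

private theorem cz_shift {ρ : ℝ} (hρ : 0 < ρ) (F : ℂ → ℂ) (k m : ℤ) :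
    cz ρ (fun w => w ^ k * F w) m = cz ρ F (m - k) := by
  unfold cz
  congr 2
  ext t
  have h : pr ρ t ^ (-(m - k)) = pr ρ t ^ k * pr ρ t ^ (-m) := by
    rw [← zpow_add₀ (pr_ne hρ t)]
    congr 1
    ring
  rw [h]
  ring

private theorem cz_one {ρ : ℝ} (hρ : 0 < ρ) {m : ℤ} (hm : m ≠ 0) : cz ρ (fun _ => 1) m = 0 := by
  unfold cz
  have hmC : (-(m : ℂ)) * I ≠ 0 := mul_ne_zero (neg_ne_zero.2 (by exact_mod_cast hm)) Complex.I_ne_zero
  have h : ∀ t : ℝ, (1 : ℂ) * pr ρ t ^ (-m) = (ρ : ℂ) ^ (-m) * exp ((-(m : ℂ)) * I * t) := by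
    intro t
    unfold pr
    rw [one_mul, mul_zpow, ← Complex.exp_int_mul]
    congr 2
    push_cast
    ring
  simp only [h]
  rw [intervalIntegral.integral_const_mul, integral_exp_mul_complex hmC]
  have h2 : exp ((-(m : ℂ)) * I * ((2 * π : ℝ) : ℂ)) = 1 := by
    have := Complex.exp_int_mul_two_pi_mul_I (-m)
    rw [← this]
    congr 1
    push_cast
    ring
  have h3 : exp ((-(m : ℂ)) * I * ((0 : ℝ) : ℂ)) = 1 := by simp
  rw [h2, h3]
  simp

private theorem cz_one_zero {ρ : ℝ} : cz ρ (fun _ => 1) 0 = 1 := by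
  unfold cz
  have hpi : (2 * π : ℂ) ≠ 0 := by
    have := Real.pi_ne_zero
    exact mul_ne_zero two_ne_zero (by exact_mod_cast this)
  simp only [neg_zero, zpow_zero, mul_one, intervalIntegral.integral_const, sub_zero]
  rw [div_eq_one_iff_eq hpi]
  simp

private theorem CC.mul {ρ : ℝ} {F G : ℂ → ℂ} (hF : CC ρ F) (hG : CC ρ G) : CC ρ (fun w => F w * G w) :=
  Continuous.mul hF hG

private theorem CC.zpow {ρ : ℝ} (hρ : 0 < ρ) (k : ℤ) : CC ρ (fun w => w ^ k) := prz_cont hρ k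

private theorem CC.const {ρ : ℝ} (c : ℂ) : CC ρ (fun _ => c) := continuous_const

private theorem cz_two {ρ : ℝ} (hρ : 0 < ρ) (p q s : ℂ) {G : ℂ → ℂ} (hG : CC ρ G) (m : ℤ) :
    cz ρ (fun w => (p + q * w + s * w⁻¹) * G w) m = p * cz ρ G m + q * cz ρ G (m - 1) + s * cz ρ G (m + 1) := by
  have e : (fun w : ℂ => (p + q * w + s * w⁻¹) * G w) =
      fun w => (p * G w + q * (w ^ (1 : ℤ) * G w)) + s * (w ^ (-1 : ℤ) * G w) := by
    ext w
    rw [zpow_one, zpow_neg_one]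
    ring
  rw [e, cz_add hρ, cz_add hρ, cz_smul, cz_smul, cz_smul, cz_shift hρ, cz_shift hρ]
  · rw [sub_neg_eq_add]
  · exact (CC.const p).mul hG
  · exact (CC.const q).mul ((CC.zpow hρ 1).mul hG)
  · exact Continuous.add ((CC.const p).mul hG) ((CC.const q).mul ((CC.zpow hρ 1).mul hG))
  · exact (CC.const s).mul ((CC.zpow hρ (-1)).mul hG)

private theorem cz_zw {ρ : ℝ} (hρ : 0 < ρ) (μ : ℂ) {G : ℂ → ℂ} (hG : CC ρ G) (m : ℤ) :
    cz ρ (fun w => zw μ w * G w) m = cz ρ G (m - 1) + μ * cz ρ G (m + 1) := by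
  have h := cz_two hρ 0 1 μ hG m
  have e : (fun w : ℂ => zw μ w * G w) = fun w => (0 + 1 * w + μ * w⁻¹) * G w := by
    ext w
    unfold zw
    ring
  rw [e, h]
  ring

private theorem cz_pw {ρ : ℝ} (hρ : 0 < ρ) (μ : ℂ) {G : ℂ → ℂ} (hG : CC ρ G) (m : ℤ) :
    cz ρ (fun w => pw μ w * G w) m = cz ρ G (m - 1) - μ * cz ρ G (m + 1) := by
  have h := cz_two hρ 0 1 (-μ) hG m
  have e : (fun w : ℂ => pw μ w * G w) = fun w => (0 + 1 * w + (-μ) * w⁻¹) * G w := by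
    ext w
    unfold pw
    ring
  rw [e, h]
  ring

private theorem cz_zt {ρ : ℝ} (hρ : 0 < ρ) (μ : ℂ) (a : ℝ) (γ β : ℂ) {G : ℂ → ℂ} (hG : CC ρ G) (m : ℤ) :
    cz ρ (fun w => zt μ a γ β w * G w) m = γ * cz ρ G m + a * cz ρ G (m - 1) + (a * μ + β) * cz ρ G (m + 1) := by
  have h := cz_two hρ γ a (a * μ + β) hG m
  have e : (fun w : ℂ => zt μ a γ β w * G w) = fun w => (γ + a * w + (a * μ + β) * w⁻¹) * G w := by
    ext w
    unfold zt
    ring
  rw [e, h]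

private theorem CC_zw {ρ : ℝ} (hρ : 0 < ρ) (μ : ℂ) : CC ρ (zw μ) := by
  have h1 := CC.zpow hρ (-1)
  have h2 : CC ρ (fun w => w⁻¹) := by
    have e : (fun w : ℂ => w⁻¹) = fun w => w ^ (-1 : ℤ) := by
      ext w
      rw [zpow_neg_one]
    rw [e]
    exact h1
  exact Continuous.add (pr_cont ρ) (Continuous.mul continuous_const h2)

private theorem CC_pw {ρ : ℝ} (hρ : 0 < ρ) (μ : ℂ) : CC ρ (pw μ) := by
  have h := CC_zw hρ (-μ)
  have e : pw μ = zw (-μ) := by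
    ext w
    unfold pw zw
    ring
  rw [e]
  exact h

private theorem CC_zt {ρ : ℝ} (hρ : 0 < ρ) (μ : ℂ) (a : ℝ) (γ β : ℂ) : CC ρ (zt μ a γ β) := by
  have h2 : CC ρ (fun w => w⁻¹) := by
    have e : (fun w : ℂ => w⁻¹) = fun w => w ^ (-1 : ℤ) := by
      ext w
      rw [zpow_neg_one]
    rw [e]
    exact CC.zpow hρ (-1)
  exact Continuous.add (Continuous.add continuous_const (Continuous.mul continuous_const (CC_zw hρ μ)))
    (Continuous.mul continuous_const h2)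

private theorem CC_zwp {ρ : ℝ} (hρ : 0 < ρ) (μ : ℂ) (b : ℕ) : CC ρ (fun w => zw μ w ^ b) :=
  Continuous.pow (CC_zw hρ μ) b

/-- `fc` is a Laurent coefficient -/
private theorem fc_cz {ρ : ℝ} (μ : ℂ) (F : ℂ → ℂ) (n : ℕ) :
    fc 0 1 μ F ρ n = cz ρ (fun w => F (zw μ w) * pw μ w) (n : ℤ) := by
  unfold fc cz
  congr 2
  ext t
  simp only [zw, pw, pr, Complex.ofReal_one, one_mul, zero_add, zpow_neg, zpow_natCast, inv_pow]

private noncomputable def Az (ρ : ℝ) (μ : ℂ) (b : ℕ) (m : ℤ) : ℂ := cz ρ (fun w => zw μ w ^ b * pw μ w) m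

private theorem Az_zero {ρ : ℝ} (hρ : 0 < ρ) (μ : ℂ) (m : ℤ) :
    Az ρ μ 0 m = cz ρ (fun _ => 1) (m - 1) - μ * cz ρ (fun _ => 1) (m + 1) := by
  rw [← cz_pw hρ μ (CC.const 1)]
  unfold Az
  congr 1
  ext w
  rw [pow_zero, one_mul, mul_one]

private theorem Az_succ {ρ : ℝ} (hρ : 0 < ρ) (μ : ℂ) (b : ℕ) (m : ℤ) :
    Az ρ μ (b + 1) m = Az ρ μ b (m - 1) + μ * Az ρ μ b (m + 1) := by
  unfold Az
  rw [← cz_zw hρ μ ((CC_zwp hρ μ b).mul (CC_pw hρ μ))]
  congr 1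
  ext w
  rw [pow_succ]
  ring

private theorem Az_high {ρ : ℝ} (hρ : 0 < ρ) (μ : ℂ) (b : ℕ) : ∀ m : ℤ, (b : ℤ) + 1 < m → Az ρ μ b m = 0 := by
  induction b with
  | zero =>
    intro m hm
    push_cast at hm
    rw [Az_zero hρ, cz_one hρ (by omega), cz_one hρ (by omega)]
    ring
  | succ b ih =>
    intro m hm
    push_cast at hm
    rw [Az_succ hρ, ih _ (by omega), ih _ (by omega)]
    ring

private theorem Az_top {ρ : ℝ} (hρ : 0 < ρ) (μ : ℂ) (b : ℕ) : Az ρ μ b ((b : ℤ) + 1) = 1 := by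
  induction b with
  | zero =>
    rw [Az_zero hρ]
    rw [show ((0 : ℕ) : ℤ) + 1 - 1 = 0 by norm_num, cz_one_zero, cz_one hρ (by norm_num)]
    ring
  | succ b ih =>
    rw [Az_succ hρ]
    rw [show ((b + 1 : ℕ) : ℤ) + 1 - 1 = (b : ℤ) + 1 by push_cast; ring, ih, Az_high hρ μ b _ (by push_cast; omega)]
    ring

private theorem fc_Az {ρ : ℝ} (μ : ℂ) (b n : ℕ) : fc 0 1 μ (fun z => z ^ b) ρ (n + 1) = Az ρ μ b ((n : ℤ) + 1) := by
  rw [fc_cz]
  unfold Az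
  push_cast
  rfl

theorem A_top {ρ : ℝ} (hρ : 0 < ρ) (μ : ℂ) (b : ℕ) : fc 0 1 μ (fun z => z ^ b) ρ (b + 1) = 1 := by
  rw [fc_Az, Az_top hρ]

theorem A_high {ρ : ℝ} (hρ : 0 < ρ) (μ : ℂ) {b n : ℕ} (h : b < n) : fc 0 1 μ (fun z => z ^ b) ρ (n + 1) = 0 := by
  rw [fc_Az, Az_high hρ μ b _ (by omega)]

private noncomputable def Zz (ρ : ℝ) (μ : ℂ) (a : ℝ) (γ β : ℂ) (b : ℕ) (m : ℤ) : ℂ :=
  cz ρ (fun w => zt μ a γ β w * zw μ w ^ b) m

private theorem Zz_high {ρ : ℝ} (hρ : 0 < ρ) (μ : ℂ) (a : ℝ) (γ β : ℂ) (b : ℕ) :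
    ∀ m : ℤ, (b : ℤ) + 1 < m → Zz ρ μ a γ β b m = 0 := by
  induction b with
  | zero =>
    intro m hm
    push_cast at hm
    have e : Zz ρ μ a γ β 0 m = cz ρ (fun w => zt μ a γ β w * 1) m := by
      unfold Zz
      congr 1
    rw [e, cz_zt hρ μ a γ β (CC.const 1), cz_one hρ (by omega), cz_one hρ (by omega), cz_one hρ (by omega)]
    ring
  | succ b ih =>
    intro m hm
    push_cast at hm
    have e : Zz ρ μ a γ β (b + 1) m = Zz ρ μ a γ β b (m - 1) + μ * Zz ρ μ a γ β b (m + 1) := by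
      unfold Zz
      rw [← cz_zw hρ μ ((CC_zt hρ μ a γ β).mul (CC_zwp hρ μ b))]
      congr 1
      ext w
      rw [pow_succ]
      ring
    rw [e, ih _ (by omega), ih _ (by omega)]
    ring

private theorem Zz_rel {ρ : ℝ} (hρ : 0 < ρ) (μ : ℂ) (a : ℝ) (γ β : ℂ) (b : ℕ) (m : ℤ) :
    Zz ρ μ a γ β b m = μ * Zz ρ μ a γ β b (m + 2) + a * Az ρ μ b m + γ * Az ρ μ b (m + 1) +
      (a * μ + β) * Az ρ μ b (m + 2) := by
  have h1 := cz_pw hρ μ ((CC_zt hρ μ a γ β).mul (CC_zwp hρ μ b)) (m + 1)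
  have h2 := cz_zt hρ μ a γ β ((CC_zwp hρ μ b).mul (CC_pw hρ μ)) (m + 1)
  have e : (fun w : ℂ => pw μ w * (zt μ a γ β w * zw μ w ^ b)) =
      fun w => zt μ a γ β w * (zw μ w ^ b * pw μ w) := by
    ext w
    ring
  rw [e, h2] at h1
  have e1 : m + 1 - 1 = m := by ring
  have e2 : m + 1 + 1 = m + 2 := by ring
  rw [e1, e2] at h1
  unfold Zz Az
  linear_combination -h1

private theorem Zz_sum {ρ : ℝ} (hρ : 0 < ρ) (μ : ℂ) (a : ℝ) (γ β : ℂ) (b : ℕ) : ∀ d n : ℕ, b < n + d →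
    Zz ρ μ a γ β b ((n : ℤ) + 1) = ∑ k ∈ Finset.range d, Pc μ a γ β k * Az ρ μ b (((n + k : ℕ) : ℤ) + 1)
  | 0, n, h => by
    rw [Finset.sum_range_zero, Zz_high hρ μ a γ β b _ (by omega)]
  | 1, n, h => by
    rw [Zz_rel hρ, Zz_high hρ μ a γ β b _ (by omega), Az_high hρ μ b ((n : ℤ) + 1 + 1) (by omega),
      Az_high hρ μ b ((n : ℤ) + 1 + 2) (by omega), Finset.sum_range_one, add_zero]
    unfold Pc
    ring
  | d + 2, n, h => by
    have ih := Zz_sum hρ μ a γ β b d (n + 2) (by omega)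
    rw [Zz_rel hρ]
    have e1 : ((n : ℤ) + 1 + 2) = (((n + 2 : ℕ) : ℤ) + 1) := by push_cast; ring
    have e2 : ((n : ℤ) + 1 + 1) = (((n + 1 : ℕ) : ℤ) + 1) := by push_cast; ring
    rw [e1, ih, e2, Finset.sum_range_succ', Finset.sum_range_succ']
    have hP : ∀ k : ℕ, Pc μ a γ β (k + 1 + 1) = μ * Pc μ a γ β k + if k = 0 then (a * μ + β) else 0 := by
      intro k
      rcases k with _ | k
      · simp only [zero_add, if_true, Pc]
        ring
      · simp only [Nat.add_eq_zero_iff, one_ne_zero, and_false, if_false, add_zero, Pc]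
    have hs : ∑ k ∈ Finset.range d, Pc μ a γ β (k + 1 + 1) * Az ρ μ b (((n + (k + 1 + 1) : ℕ) : ℤ) + 1) =
        μ * (∑ k ∈ Finset.range d, Pc μ a γ β k * Az ρ μ b (((n + 2 + k : ℕ) : ℤ) + 1)) +
        (a * μ + β) * Az ρ μ b (((n + 2 : ℕ) : ℤ) + 1) := by
      have h1 : ∀ k ∈ Finset.range d, Pc μ a γ β (k + 1 + 1) * Az ρ μ b (((n + (k + 1 + 1) : ℕ) : ℤ) + 1) =
          μ * (Pc μ a γ β k * Az ρ μ b (((n + 2 + k : ℕ) : ℤ) + 1)) +
          if k = 0 then (a * μ + β) * Az ρ μ b (((n + 2 : ℕ) : ℤ) + 1) else 0 := by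
        intro k _
        rw [hP k, show n + (k + 1 + 1) = n + 2 + k by ring]
        split_ifs with hk
        · subst hk
          ring
        · ring
      rw [Finset.sum_congr rfl h1, Finset.sum_add_distrib, ← Finset.mul_sum]
      congr 1
      rcases d with _ | d
      · rw [Finset.sum_range_zero, Az_high hρ μ b _ (by push_cast; omega), mul_zero]
      · rw [Finset.sum_ite_eq' (Finset.range (d + 1)) 0, if_pos (Finset.mem_range.2 (Nat.succ_pos d))]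
    rw [hs]
    simp only [zero_add, add_zero, Pc]
    ring

theorem alg_final {ρ : ℝ} (hρ : 0 < ρ) {μ : ℂ} {a : ℝ} {γ β : ℂ} (u v : ℕ → ℂ)
    (h : ∀ b : ℕ, ∑ n ∈ Finset.range (b + 1), (u n * fc 0 1 μ (fun z => z ^ b) ρ (n + 1) +
      v n * cz ρ (fun x => zt μ a γ β x * zw μ x ^ b) ((n : ℤ) + 1)) = 0) (n : ℕ) :
    u n + ∑ k ∈ Finset.range (n + 1), Pc μ a γ β (n - k) * v k = 0 := by
  have key : ∀ b : ℕ, ∑ m ∈ Finset.range (b + 1), (u m + ∑ k ∈ Finset.range (m + 1), Pc μ a γ β (m - k) * v k) *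
      Az ρ μ b ((m : ℤ) + 1) = 0 := by
    intro b
    rw [← h b]
    have h1 : ∀ n ∈ Finset.range (b + 1), u n * fc 0 1 μ (fun z => z ^ b) ρ (n + 1) +
        v n * cz ρ (fun x => zt μ a γ β x * zw μ x ^ b) ((n : ℤ) + 1) =
        u n * Az ρ μ b ((n : ℤ) + 1) + ∑ m ∈ Finset.Ico n (b + 1), Pc μ a γ β (m - n) * v n * Az ρ μ b ((m : ℤ) + 1) := by
      intro n hn
      have hn' := Finset.mem_range.1 hn
      have h2 := Zz_sum hρ μ a γ β b (b + 1 - n) n (by omega)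
      unfold Zz at h2
      rw [fc_Az, h2, Finset.sum_Ico_eq_sum_range, Finset.mul_sum]
      congr 1
      refine Finset.sum_congr rfl fun k _ => ?_
      rw [Nat.add_sub_cancel_left]
      ring
    rw [Finset.sum_congr rfl h1, Finset.sum_add_distrib, Finset.range_eq_Ico, Finset.sum_Ico_Ico_comm]
    rw [← Finset.sum_add_distrib]
    refine Finset.sum_congr rfl fun m _ => ?_
    rw [add_mul, Finset.sum_mul]
    simp only [Finset.range_eq_Ico]
  induction n using Nat.strong_induction_on with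
  | _ n ih =>
    have h1 := key n
    rw [Finset.sum_range_succ, Az_top hρ, mul_one, Finset.sum_eq_zero, zero_add] at h1
    · exact h1
    · intro m hm
      rw [ih m (Finset.mem_range.1 hm), zero_mul]

end LD1
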